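import Pool.Agent.X185.HS.Chain

set_option autoImplicit false

/-! MP_6b630c_al: the poset of quasi-parabolic structures on `ℤ ≀ ℤ` contains a chain that is order
isomorphic to the real line. For `σ > 0` the structure is generated by the shift and the elements
`f` of the base group with `2 ^ ⌈-σ m⌉ ∣ f m` for all `m < 0` (a `2`-adic Gauss norm). -/

namespace Pool.Agent.Results.MP_6b630c_al.UncountableChain

open Pool.Agent.X185.HS

/-- `H_qp(ℤ ≀ ℤ)` contains an uncountable chain, indeed an order embedded copy of `ℝ`. -/
theorem result : ∃ f : ℝ ↪o HQP Wr,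
    IsChain (· ≤ ·) (Set.range f) ∧ ¬ (Set.range f).Countable :=
  chain_of_surj (MonoidHom.id Wr) Function.surjective_id

end Pool.Agent.Results.MP_6b630c_al.UncountableChain
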